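import Mathlib
import Pool.Agent.Y89.TS.Stm

set_option autoImplicit false

/-!
# Stone-Weierstrass without separation of points
-/

namespace Pool.Agent.Y488.TS

open Pool.Agent.Y89.TS

theorem t_sw : S_sw := by
  intro X _ _ S φ hφ ε hε
  let π : X → (S → ℂ) := fun x s => s.1 x
  have hπ : Continuous π := continuous_pi fun s => s.1.continuous
  haveI : CompactSpace (Set.range π) := isCompact_iff_compactSpace.mp (isCompact_range hπ)
  let q : X → Set.range π := Set.rangeFactorization π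
  have hq : Continuous q := hπ.subtype_mk _
  have hqs : Function.Surjective q := Set.rangeFactorization_surjective
  have hqq : Topology.IsQuotientMap q := Topology.IsQuotientMap.of_surjective_continuous hqs hq
  let ψ : Set.range π → ℂ := fun y => φ (Function.surjInv hqs y)
  have hψ : ∀ x, ψ (q x) = φ x := by
    intro x
    apply hφ
    intro s hs
    have h1 : q (Function.surjInv hqs (q x)) = q x := Function.surjInv_eq hqs (q x)
    have h2 := congrArg Subtype.val h1
    exact congrFun h2 ⟨s, hs⟩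
  have hψc : Continuous ψ := by
    rw [hqq.continuous_iff]
    have : ψ ∘ q = φ := funext hψ
    rw [this]
    exact φ.continuous
  let qc : C(X, Set.range π) := ⟨q, hq⟩
  let A : StarSubalgebra ℂ C(Set.range π, ℂ) := S.comap (ContinuousMap.compStarAlgHom' ℂ ℂ qc)
  have hA : A.SeparatesPoints := by
    intro y y' hyy
    have h1 : y.1 ≠ y'.1 := fun h => hyy (Subtype.ext h)
    obtain ⟨s, hs⟩ := Function.ne_iff.mp h1
    let c : C(Set.range π, ℂ) := ⟨fun z => z.1 s, (continuous_apply s).comp continuous_subtype_val⟩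
    refine ⟨c, ⟨c, ?_, rfl⟩, hs⟩
    show c.comp qc ∈ S
    have h2 : c.comp qc = s.1 := by
      ext x
      rfl
    rw [h2]
    exact s.2
  have hcl := ContinuousMap.starSubalgebra_topologicalClosure_eq_top_of_separatesPoints A hA
  have hmem : (⟨ψ, hψc⟩ : C(Set.range π, ℂ)) ∈ A.topologicalClosure := by
    rw [hcl]
    trivial
  have hmem2 : (⟨ψ, hψc⟩ : C(Set.range π, ℂ)) ∈ closure (A : Set C(Set.range π, ℂ)) := by
    rw [← StarSubalgebra.topologicalClosure_coe]
    exact hmem
  obtain ⟨a, ha, hda⟩ := Metric.mem_closure_iff.mp hmem2 ε hε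
  refine ⟨a.comp qc, ha, fun x => ?_⟩
  have h1 : ‖(⟨ψ, hψc⟩ : C(Set.range π, ℂ)) (q x) - a (q x)‖ ≤ dist (⟨ψ, hψc⟩ : C(Set.range π, ℂ)) a := by
    rw [← dist_eq_norm]
    exact ContinuousMap.dist_apply_le_dist (q x)
  have h2 : (⟨ψ, hψc⟩ : C(Set.range π, ℂ)) (q x) = φ x := hψ x
  rw [h2] at h1
  exact h1.trans hda.le

/-- fixed points of groups of isometries in closed convex sets -/
theorem t_fix : S_fix := by
  intro P _ G C hne hcl hconv hG
  letI : InnerProductSpace ℝ (EuclideanSpace ℂ P) := InnerProductSpace.rclikeToReal ℂ _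
  obtain ⟨v, hv, hmin⟩ := exists_norm_eq_iInf_of_complete_convex hne hcl.isComplete hconv 0
  have hle : ∀ w ∈ C, ‖v‖ ≤ ‖w‖ := by
    intro w hw
    have h1 : ‖(0 : EuclideanSpace ℂ P) - v‖ ≤ ‖(0 : EuclideanSpace ℂ P) - w‖ := by
      rw [hmin]
      have hb : BddBelow (Set.range fun w : C => ‖(0 : EuclideanSpace ℂ P) - w‖) :=
        ⟨0, by rintro _ ⟨w, rfl⟩; exact norm_nonneg _⟩
      exact ciInf_le hb ⟨w, hw⟩
    rwa [zero_sub, norm_neg, zero_sub, norm_neg] at h1
  refine ⟨v, hv, fun g hg => ?_⟩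
  have hgv := hG g hg v hv
  have hn : ‖g v‖ = ‖v‖ := g.norm_map v
  have hm : (1 / 2 : ℝ) • v + (1 / 2 : ℝ) • g v ∈ C :=
    hconv hv hgv (by norm_num) (by norm_num) (by norm_num)
  have h2 := hle _ hm
  have h3 := parallelogram_law_with_norm ℝ v (g v)
  have h4 : ‖(1 / 2 : ℝ) • v + (1 / 2 : ℝ) • g v‖ = 1 / 2 * ‖v + g v‖ := by
    rw [← smul_add, norm_smul, Real.norm_eq_abs, abs_of_pos (by norm_num)]
  rw [h4] at h2
  rw [hn] at h3
  have h5 : ‖v - g v‖ = 0 := by
    have h6 := norm_nonneg (v - g v)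
    have h7 := norm_nonneg v
    have h8 := norm_nonneg (v + g v)
    nlinarith
  rw [norm_eq_zero, sub_eq_zero] at h5
  exact h5.symm

end Pool.Agent.Y488.TS
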